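import Pool.Agent.P8H70.SR.Stm

/-! Package CO of project SR: Taylor coefficients. -/

set_option autoImplicit false

open Filter Topology Metric Set

namespace Pool.Agent.P8H53.SR

open Pool.Agent.P8H70.SR

theorem co_congr (m : ℕ) (f g : ℂ → ℂ) (h : f =ᶠ[𝓝 0] g) : co m f = co m g := by
  unfold co
  rw [h.iteratedDeriv_eq]

theorem co_series {f : ℂ → ℂ} (hf : AnalyticAt ℂ f 0) :
    ∀ᶠ z in 𝓝 (0 : ℂ), HasSum (fun n => z ^ n * co n f) (f z) := by
  have h := hf.hasFPowerSeriesAt
  rw [hasFPowerSeriesAt_iff] at h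
  filter_upwards [h] with z hz
  simpa [co] using hz

theorem co_unique {f : ℂ → ℂ} {a : ℕ → ℂ}
    (h : ∀ᶠ z in 𝓝 (0 : ℂ), HasSum (fun n => z ^ n * a n) (f z)) (n : ℕ) : co n f = a n := by
  have h1 : HasFPowerSeriesAt f (FormalMultilinearSeries.ofScalars ℂ a) 0 := by
    rw [hasFPowerSeriesAt_iff]
    filter_upwards [h] with z hz
    simpa using hz
  have h2 := (h1.analyticAt).hasFPowerSeriesAt
  have h3 := h2.eq_formalMultilinearSeries h1
  have h4 := congrArg (fun p => FormalMultilinearSeries.coeff p n) h3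
  simpa [co] using h4

theorem co_add (m : ℕ) (f g : ℂ → ℂ) (hf : AnalyticAt ℂ f 0) (hg : AnalyticAt ℂ g 0) :
    co m (fun z => f z + g z) = co m f + co m g := by
  apply co_unique
  filter_upwards [co_series hf, co_series hg] with z h1 h2
  simpa [mul_add] using h1.add h2

theorem co_smul (m : ℕ) (c : ℂ) (f : ℂ → ℂ) (hf : AnalyticAt ℂ f 0) :
    co m (fun z => c * f z) = c * co m f := by
  apply co_unique
  filter_upwards [co_series hf] with z h1
  have e : (fun n => z ^ n * (c * co n f)) = fun n => c * (z ^ n * co n f) := by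
    funext n; ring
  rw [e]
  exact h1.mul_left c

theorem co_mul (m : ℕ) (f g : ℂ → ℂ) (hf : AnalyticAt ℂ f 0) (hg : AnalyticAt ℂ g 0) :
    co m (fun z => f z * g z) =
      ∑ p ∈ Finset.HasAntidiagonal.antidiagonal m, co p.1 f * co p.2 g := by
  unfold co
  rw [iteratedDeriv_fun_mul hf.contDiffAt hg.contDiffAt,
    Finset.Nat.sum_antidiagonal_eq_sum_range_succ_mk, Finset.sum_div]
  refine Finset.sum_congr rfl fun i hi => ?_
  have hi' : i ≤ m := Nat.lt_succ_iff.1 (Finset.mem_range.1 hi)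
  have h1 : ((m.choose i : ℕ) : ℂ) * (i.factorial : ℂ) * ((m - i).factorial : ℂ) =
      (m.factorial : ℂ) := by
    exact_mod_cast Nat.choose_mul_factorial_mul_factorial hi'
  have h2 : (i.factorial : ℂ) ≠ 0 := by exact_mod_cast Nat.factorial_ne_zero i
  have h3 : ((m - i).factorial : ℂ) ≠ 0 := by exact_mod_cast Nat.factorial_ne_zero _
  have h4 : (m.factorial : ℂ) ≠ 0 := by exact_mod_cast Nat.factorial_ne_zero m
  rw [div_mul_div_comm, div_eq_div_iff h4 (mul_ne_zero h2 h3), ← h1]
  ring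

theorem co_pow (m k : ℕ) : co m (fun z => z ^ k) = if m = k then 1 else 0 := by
  apply co_unique
  refine Eventually.of_forall fun z => ?_
  have := hasSum_single (f := fun n => z ^ n * (if n = k then (1 : ℂ) else 0)) k
    (fun n hn => by simp [hn])
  simpa using this

theorem co_shift (m : ℕ) (f : ℂ → ℂ) (hf : AnalyticAt ℂ f 0) :
    co (m + 1) (fun z => z * f z) = co m f := by
  have h1 := co_unique (f := fun z => z * f z) (a := fun n => if n = 0 then 0 else co (n - 1) f)
    (by
      filter_upwards [co_series hf] with z h1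
      have h2 := h1.mul_left z
      rw [← hasSum_nat_add_iff' 1]
      simpa [pow_succ, mul_comm, mul_assoc, mul_left_comm] using h2) (m + 1)
  simpa using h1

theorem co_rot (m : ℕ) (f : ℂ → ℂ) (ω : ℂ) (hf : AnalyticAt ℂ f 0) :
    co m (fun z => f (ω * z)) = ω ^ m * co m f := by
  apply co_unique
  have h1 : Tendsto (fun z : ℂ => ω * z) (𝓝 0) (𝓝 0) := by
    have : Continuous fun z : ℂ => ω * z := by fun_prop
    simpa using this.tendsto 0
  filter_upwards [h1.eventually (co_series hf)] with z h2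
  convert h2 using 2
  ring

theorem co_euler (m : ℕ) (f : ℂ → ℂ) (hf : AnalyticAt ℂ f 0) :
    co m (fun z => z * deriv f z) = m * co m f := by
  rcases m with _ | m
  · simp [co]
  · rw [co_shift m (deriv f) hf.deriv]
    unfold co
    rw [iteratedDeriv_succ', Nat.factorial_succ]
    have h1 : (m.factorial : ℂ) ≠ 0 := by exact_mod_cast Nat.factorial_ne_zero m
    have h2 : ((m + 1 : ℕ) : ℂ) ≠ 0 := by exact_mod_cast Nat.succ_ne_zero m
    push_cast at h2 ⊢
    field_simp

theorem co_cauchy (m : ℕ) (f : ℂ → ℂ) (R B : ℝ) (hR : 0 < R) (hf : DifferentiableOn ℂ f (ball 0 R))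
    (hB : ∀ z ∈ ball (0 : ℂ) R, ‖f z‖ ≤ B) : ‖co m f‖ ≤ B / R ^ m := by
  have key : ∀ r ∈ Ioo (0 : ℝ) R, ‖co m f‖ ≤ B / r ^ m := by
    rintro r ⟨h1, h2⟩
    have h3 : DiffContOnCl ℂ f (ball 0 r) :=
      hf.diffContOnCl_ball (closedBall_subset_ball h2)
    have h4 := Complex.norm_iteratedDeriv_le_of_forall_mem_sphere_norm_le m h1 h3
      (fun z hz => hB z (by
        rw [mem_sphere_iff_norm, sub_zero] at hz
        rw [mem_ball_zero_iff, hz]; exact h2))
    unfold co
    have h5 : (0 : ℝ) < (m.factorial : ℝ) := by exact_mod_cast m.factorial_pos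
    rw [norm_div, Complex.norm_natCast, div_le_iff₀ h5]
    calc _ ≤ _ := h4
      _ = B / r ^ m * (m.factorial : ℝ) := by ring
  have h1 : Tendsto (fun r : ℝ => B / r ^ m) (𝓝[<] R) (𝓝 (B / R ^ m)) := by
    apply Tendsto.mono_left _ nhdsWithin_le_nhds
    apply ContinuousAt.tendsto
    apply ContinuousAt.div continuousAt_const (by fun_prop) (by positivity)
  apply ge_of_tendsto h1
  filter_upwards [Ioo_mem_nhdsLT hR] with r hr
  exact key r hr

theorem co_thm : S_CO :=
  ⟨co_congr, co_add, co_smul, co_mul, co_shift, co_rot, co_pow, co_euler, co_cauchy⟩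

end Pool.Agent.P8H53.SR
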