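import Pool.Agent.P8H70.SR.Stm

/-! Package DIG of project SR: binary digit sums. -/

set_option autoImplicit false

namespace Pool.Agent.P8H53.SR

open Pool.Agent.P8H70.SR

theorem sd_zero : sd 0 = 0 := by simp [sd]

theorem sd_two_mul (m : ℕ) : sd (2 * m) = sd m := by
  rcases Nat.eq_zero_or_pos m with h | h
  · subst h; simp [sd]
  · unfold sd
    rw [Nat.digits_def' (by norm_num) (by omega)]
    simp

theorem sd_two_mul_add (m : ℕ) : sd (2 * m + 1) = sd m + 1 := by
  unfold sd
  rw [Nat.digits_def' (by norm_num) (by omega)]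
  have h1 : (2 * m + 1) % 2 = 1 := by omega
  have h2 : (2 * m + 1) / 2 = m := by omega
  rw [h1, h2, List.sum_cons]
  ring

theorem sd_succ (m : ℕ) : sd (m + 1) ≤ sd m + 1 := by
  induction m using Nat.strong_induction_on with
  | _ m ih =>
    rcases Nat.even_or_odd' m with ⟨c, h | h⟩
    · rw [h, sd_two_mul_add, sd_two_mul]
    · have e : m + 1 = 2 * (c + 1) := by omega
      rw [e, sd_two_mul, h, sd_two_mul_add]
      have := ih c (by omega)
      omega

theorem sd_add (a b : ℕ) : sd (a + b) ≤ sd a + sd b := by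
  induction a using Nat.strong_induction_on generalizing b with
  | _ a ih =>
    rcases Nat.eq_zero_or_pos a with h0 | h0
    · subst h0; simp
    rcases Nat.even_or_odd' a with ⟨c, h | h⟩ <;> rcases Nat.even_or_odd' b with ⟨e, h' | h'⟩
    · rw [h, h', ← Nat.mul_add, sd_two_mul, sd_two_mul, sd_two_mul]
      exact ih c (by omega) e
    · have e1 : a + b = 2 * (c + e) + 1 := by omega
      rw [e1, sd_two_mul_add, h, h', sd_two_mul, sd_two_mul_add]
      have := ih c (by omega) e
      omega
    · have e1 : a + b = 2 * (c + e) + 1 := by omega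
      rw [e1, sd_two_mul_add, h, h', sd_two_mul, sd_two_mul_add]
      have := ih c (by omega) e
      omega
    · have e1 : a + b = 2 * (c + e + 1) := by omega
      rw [e1, sd_two_mul, h, h', sd_two_mul_add, sd_two_mul_add]
      have h1 := ih c (by omega) e
      have h2 := sd_succ (c + e)
      omega

theorem sd_le (m : ℕ) : sd m ≤ m := by
  induction m with
  | zero => simp [sd]
  | succ m ih =>
    have := sd_succ m
    omega

theorem sd_pow_sub_one (r : ℕ) : sd (2 ^ r - 1) = r := by
  induction r with
  | zero => simp [sd]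
  | succ r ih =>
    have h1 : 1 ≤ 2 ^ r := Nat.one_le_two_pow
    have e : 2 ^ (r + 1) - 1 = 2 * (2 ^ r - 1) + 1 := by
      rw [pow_succ]; omega
    rw [e, sd_two_mul_add, ih]

theorem dig : S_DIG := by
  refine ⟨sd_zero, sd_two_mul, sd_two_mul_add, sd_add, sd_le, fun r l h1 h2 => ?_⟩
  have e : 2 ^ r - 1 = (2 ^ r - l) + (l - 1) := by omega
  have h3 := sd_add (2 ^ r - l) (l - 1)
  rw [← e, sd_pow_sub_one] at h3
  have h4 := sd_le (l - 1)
  omega

end Pool.Agent.P8H53.SR
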